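import Pool.Agent.L7h35.GP.Stm

/-! # Project GP, part GIRTH (helper54) -/

set_option autoImplicit false

namespace Pool.Agent.L7h54.GP

open Pool.Agent.L7h35.GP

theorem walk_mem {V : Type} {a : V → V → Prop} {C : Finset V}
    (hcl : ∀ v ∈ C, ∀ w, a v w → w ∈ C) {k : ℕ} {x y : V} (hx : x ∈ C) (h : Wk a k x y) :
    y ∈ C := by
  induction k generalizing x with
  | zero => cases h; exact hx
  | succ k ih =>
    obtain ⟨w, hw, h2⟩ := h
    exact ih (hcl x hx w hw) h2

/-- walks inside a set with successors -/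
theorem walk_inside {V : Type} {a : V → V → Prop} {Z : Finset V}
    (hs : ∀ z ∈ Z, ∃ z' ∈ Z, a z z') (t : ℕ) {z : V} (hz : z ∈ Z) : ∃ z' ∈ Z, Wk a t z z' := by
  induction t generalizing z with
  | zero => exact ⟨z, hz, rfl⟩
  | succ t ih =>
    obtain ⟨w, hw, h⟩ := hs z hz
    obtain ⟨z', hz', h2⟩ := ih hw
    exact ⟨z', hz', w, h, h2⟩

theorem s_GIRTH (hC : S_CHAIN) (hZ : S_ZS) : S_GIRTH := by
  intro V iF iD a j C p c hcore hp hc hw hmin
  classical
  obtain ⟨Z, hZC, hZp, hcZ, hZ2⟩ := hZ V iD a C c p p hcore.closed hc hp hw (by omega) hmin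
  obtain ⟨K, hK, hfull⟩ := hcore.full
  obtain ⟨kc, hkc⟩ := hcore.conn c hc
  -- first part
  have h1 : ∀ u : V, ∃ z ∈ Z, Wk a (Fintype.card V - p) u z := by
    intro u
    obtain ⟨D, hD⟩ : ∃ D : ℕ → Finset V, ∀ k x, x ∈ D k ↔ ∃ l, l ≤ k ∧ ∃ z ∈ Z, Wk a l x z :=
      ⟨fun k => Finset.univ.filter (fun u => ∃ l, l ≤ k ∧ ∃ z ∈ Z, Wk a l u z), by simp⟩
    have key := hC V iD Finset.univ D (fun k => Finset.subset_univ _)
      (by
        intro k x hx
        rw [hD] at hx ⊢
        obtain ⟨l, hl, h⟩ := hx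
        exact ⟨l, by omega, h⟩)
      (by
        intro k hk
        ext x
        rw [hD, hD]
        constructor
        · rintro ⟨l, hl, h⟩
          exact ⟨l, by omega, h⟩
        · rintro ⟨l, hl, z, hz, h⟩
          by_cases hl2 : l ≤ k + 1
          · exact ⟨l, hl2, z, hz, h⟩
          · obtain rfl : l = (k + 1) + 1 := by omega
            obtain ⟨w, hxw, hwz⟩ := h
            have hwm : w ∈ D (k + 1) := (hD _ _).2 ⟨k + 1, le_rfl, z, hz, hwz⟩
            rw [← hk, hD] at hwm
            obtain ⟨l', hl', z', hz', h'⟩ := hwm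
            exact ⟨l' + 1, by omega, z', hz', w, hxw, h'⟩)
      (K + kc)
    have hD0 : D 0 = Z := by
      ext x
      rw [hD]
      constructor
      · rintro ⟨l, hl, z, hz, h⟩
        obtain rfl : l = 0 := by omega
        cases h
        exact hz
      · intro hx
        exact ⟨0, le_rfl, x, hx, rfl⟩
    have hu : u ∈ D (K + kc) :=
      (hD _ _).2 ⟨K + kc, le_rfl, c, hcZ, Wk_trans (hfull u) hkc⟩
    have hu2 := key hu
    rw [hD0, hD, Finset.card_univ, hZp] at hu2
    obtain ⟨l, hl, z, hz, h⟩ := hu2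
    obtain ⟨z', hz', h'⟩ := walk_inside (fun z hz => (hZ2 z hz).2.1)
      (Fintype.card V - p - l) hz
    exact ⟨z', hz', Wk_cast (Wk_trans h h') (by omega)⟩
  -- second part
  have h2 : ∀ z ∈ Z, Wk a (p * (C.card - 1)) z j := by
    intro z hz
    have hzC := hZC hz
    have hzz := (hZ2 z hz).1
    obtain ⟨D, hD⟩ : ∃ D : ℕ → Finset V, ∀ k x, x ∈ D k ↔ x ∈ C ∧ Wk a (p * k) z x :=
      ⟨fun k => C.filter (fun v => Wk a (p * k) z v), by simp⟩
    have key := hC V iD C D
      (fun k x hx => ((hD _ _).1 hx).1)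
      (by
        intro k x hx
        rw [hD] at hx ⊢
        exact ⟨hx.1, Wk_cast (Wk_trans hzz hx.2) (by ring)⟩)
      (by
        intro k hk
        ext x
        rw [hD, hD]
        constructor
        · rintro ⟨hx, h⟩
          exact ⟨hx, Wk_cast (Wk_trans hzz h) (by ring)⟩
        · rintro ⟨hx, h⟩
          obtain ⟨w, hw1, hw2⟩ := Wk_add.1 (Wk_cast h
            (show p * (k + 1 + 1) = p * (k + 1) + p by ring))
          have hwm : w ∈ D (k + 1) := (hD _ _).2 ⟨walk_mem hcore.closed hzC hw1, hw1⟩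
          rw [← hk, hD] at hwm
          exact ⟨hx, Wk_cast (Wk_trans hwm.2 hw2) (by ring)⟩)
      K
    have hD0 : D 0 = {z} := by
      ext x
      rw [hD, Finset.mem_singleton]
      constructor
      · rintro ⟨-, h⟩
        have h' : Wk a 0 z x := Wk_cast h (by ring)
        cases h'
        rfl
      · rintro rfl
        refine ⟨hzC, ?_⟩
        exact Wk_cast (show Wk a 0 x x from rfl) (by ring)
    have hj : j ∈ D K :=
      (hD _ _).2 ⟨hcore.mem, Full_le hK (Nat.le_mul_of_pos_left K hp) hfull z⟩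
    have hj2 := key hj
    rw [hD0, Finset.card_singleton, hD] at hj2
    exact hj2.2
  intro u
  obtain ⟨z, hz, h⟩ := h1 u
  exact Wk_trans h (h2 z hz)

end Pool.Agent.L7h54.GP
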