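import Pool.Agent.L7h54.GP.Girth

/-! # Project GP, part PM2 (helper54) -/

set_option autoImplicit false

namespace Pool.Agent.L7h54.GP

open Pool.Agent.L7h35.GP

theorem out3 {V : Type} [DecidableEq V] {C Z : Finset V} (hZ : Z ⊆ C) (hc : Z.card + 2 = C.card)
    {x y z : V} (hx : x ∈ C) (hy : y ∈ C) (hz : z ∈ C) (h1 : x ≠ y) (h2 : x ≠ z) (h3 : y ≠ z) :
    x ∈ Z ∨ y ∈ Z ∨ z ∈ Z := by
  by_contra hcon
  push Not at hcon
  obtain ⟨a1, a2, a3⟩ := hcon
  have hsub : ({x, y, z} : Finset V) ⊆ C \ Z := by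
    intro w hw
    simp only [Finset.mem_insert, Finset.mem_singleton] at hw
    rcases hw with rfl | rfl | rfl
    · exact Finset.mem_sdiff.2 ⟨hx, a1⟩
    · exact Finset.mem_sdiff.2 ⟨hy, a2⟩
    · exact Finset.mem_sdiff.2 ⟨hz, a3⟩
  have hcard := Finset.card_le_card hsub
  rw [Finset.card_sdiff_of_subset hZ, Finset.card_eq_three.2 ⟨x, y, z, h1, h2, h3, rfl⟩] at hcard
  omega

theorem out2 {V : Type} [DecidableEq V] {C Z : Finset V} (hZ : Z ⊆ C) (hc : Z.card + 1 = C.card)
    {x y : V} (hx : x ∈ C) (hy : y ∈ C) (h1 : x ≠ y) : x ∈ Z ∨ y ∈ Z := by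
  by_contra hcon
  push Not at hcon
  obtain ⟨a1, a2⟩ := hcon
  have hsub : ({x, y} : Finset V) ⊆ C \ Z := by
    intro w hw
    simp only [Finset.mem_insert, Finset.mem_singleton] at hw
    rcases hw with rfl | rfl
    · exact Finset.mem_sdiff.2 ⟨hx, a1⟩
    · exact Finset.mem_sdiff.2 ⟨hy, a2⟩
  have hcard := Finset.card_le_card hsub
  rw [Finset.card_sdiff_of_subset hZ, Finset.card_pair h1] at hcard
  omega

theorem repr_of_le {p m : ℕ} (hp : 1 ≤ p) (hm : (p - 1) * p ≤ m) :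
    ∃ s t, m = s * p + t * (p + 1) := by
  obtain ⟨r, hr⟩ : ∃ r, r = m % p := ⟨_, rfl⟩
  obtain ⟨d, hd⟩ : ∃ d, d = m / p := ⟨_, rfl⟩
  have h1 : m = p * d + r := by rw [hr, hd]; exact (Nat.div_add_mod m p).symm
  have h2 : r < p := by rw [hr]; exact Nat.mod_lt _ hp
  have h3 : p - 1 ≤ d := by
    rw [hd]
    exact (Nat.le_div_iff_mul_le hp).2 hm
  obtain ⟨e, rfl⟩ : ∃ e, d = r + e := ⟨d - r, by omega⟩
  refine ⟨e, r, ?_⟩
  rw [h1]
  ring

theorem ins3 {V : Type} {a : V → V → Prop} {u x y j : V} {al be ga k1 k2 l : ℕ}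
    (h0 : Wk a al u u) (h1 : Wk a k1 u x) (h2 : Wk a be x x) (h3 : Wk a k2 x y)
    (h4 : Wk a ga y y) (h5 : Wk a l y j) : Wk a (al + k1 + be + k2 + ga + l) u j :=
  Wk_trans (Wk_trans (Wk_trans (Wk_trans (Wk_trans h0 h1) h2) h3) h4) h5

theorem s_PM2 (hZ : S_ZS) (hO : S_ODD) (hC : S_CHAIN) : S_PM2 := by
  intro V iD a j C hcore hev h6 hex hmin K hK u hu
  obtain ⟨c, hc, hcw⟩ := hex
  obtain ⟨c', hc', hcw'⟩ := hO V iD a j C hcore hev h6 hmin
  obtain ⟨Z, hZC, hZp, -, hZ2⟩ := hZ V iD a C c (C.card - 2) (C.card - 2) hcore.closed hc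
    (by omega) hcw (by omega) hmin
  obtain ⟨Y, hYC, hYp, -, hY2⟩ := hZ V iD a C c' (C.card - 1) (C.card - 2) hcore.closed hc'
    (by omega) hcw' (by omega) hmin
  have hZc : Z.card + 2 = C.card := by omega
  have hYc : Y.card + 1 = C.card := by omega
  obtain ⟨K0, hK0, hfull⟩ := hcore.full
  have loop : ∀ x ∈ C, ¬ a x x := fun x hx h =>
    hmin 1 le_rfl (by omega) x hx (Wk_one.2 h)
  have two : ∀ x ∈ C, ∀ y, a x y → ¬ a y x := fun x hx y h h' =>
    hmin 2 (by omega) (by omega) x hx ⟨y, h, x, h', rfl⟩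
  -- short walks
  have hshort : ∀ x ∈ C, ∃ d, d ≤ C.card - 1 ∧ Wk a d x j := by
    intro x hx
    classical
    obtain ⟨D, hD⟩ : ∃ D : ℕ → Finset V, ∀ k x, x ∈ D k ↔ x ∈ C ∧ ∃ l, l ≤ k ∧ Wk a l x j :=
      ⟨fun k => C.filter (fun u => ∃ l, l ≤ k ∧ Wk a l u j), by simp⟩
    have key := hC V iD C D
      (fun k x hx => ((hD _ _).1 hx).1)
      (by
        intro k x hx
        rw [hD] at hx ⊢
        obtain ⟨hx, l, hl, h⟩ := hx
        exact ⟨hx, l, by omega, h⟩)
      (by
        intro k hk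
        ext x
        rw [hD, hD]
        constructor
        · rintro ⟨hx, l, hl, h⟩
          exact ⟨hx, l, by omega, h⟩
        · rintro ⟨hx, l, hl, h⟩
          refine ⟨hx, ?_⟩
          by_cases hl2 : l ≤ k + 1
          · exact ⟨l, hl2, h⟩
          · obtain rfl : l = (k + 1) + 1 := by omega
            obtain ⟨w, hxw, hwz⟩ := h
            have hwm : w ∈ D (k + 1) :=
              (hD _ _).2 ⟨hcore.closed x hx w hxw, k + 1, le_rfl, hwz⟩
            rw [← hk, hD] at hwm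
            obtain ⟨-, l', hl', h'⟩ := hwm
            exact ⟨l' + 1, by omega, w, hxw, h'⟩)
      K0
    have hD0 : D 0 = {j} := by
      ext x
      rw [hD, Finset.mem_singleton]
      constructor
      · rintro ⟨-, l, hl, h⟩
        obtain rfl : l = 0 := by omega
        exact h
      · rintro rfl
        exact ⟨hcore.mem, 0, le_rfl, rfl⟩
    have hx2 := key ((hD _ _).2 ⟨hx, K0, le_rfl, hfull x⟩)
    rw [hD0, Finset.card_singleton, hD] at hx2
    exact hx2.2
  -- walks of length at least two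
  have hlong : ∀ l x, x ∈ C → Wk a (l + 2) x j → ∀ s t : ℕ,
      Wk a (l + 2 + s * (C.card - 2) + t * (C.card - 1)) x j := by
    intro l x hx hw s t
    obtain ⟨x1, h01, x2, h12, h2⟩ := hw
    have hx1 := hcore.closed x hx x1 h01
    have hx2 := hcore.closed x1 hx1 x2 h12
    have n01 : x ≠ x1 := by rintro rfl; exact loop _ hx h01
    have n12 : x1 ≠ x2 := by rintro rfl; exact loop _ hx1 h12
    have n02 : x ≠ x2 := by rintro rfl; exact two _ hx _ h01 h12
    have w01 : Wk a 1 x x1 := Wk_one.2 h01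
    have w12 : Wk a 1 x1 x2 := Wk_one.2 h12
    have r0 : ∀ v : V, Wk a 0 v v := fun _ => rfl
    rcases out3 hZC hZc hx hx1 hx2 n01 n02 n12 with hz | hz | hz <;>
    rcases out2 hYC hYc hx hx1 n01 with hy | hy
    · exact Wk_cast (ins3 (Wk_trans (Wk_mul (hZ2 _ hz).1 s) (Wk_mul (hY2 _ hy).1 t)) w01 (r0 _)
        w12 (r0 _) h2) (by ring)
    · exact Wk_cast (ins3 (Wk_mul (hZ2 _ hz).1 s) w01 (Wk_mul (hY2 _ hy).1 t)
        w12 (r0 _) h2) (by ring)
    · exact Wk_cast (ins3 (Wk_mul (hY2 _ hy).1 t) w01 (Wk_mul (hZ2 _ hz).1 s)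
        w12 (r0 _) h2) (by ring)
    · exact Wk_cast (ins3 (r0 _) w01 (Wk_trans (Wk_mul (hZ2 _ hz).1 s) (Wk_mul (hY2 _ hy).1 t))
        w12 (r0 _) h2) (by ring)
    · exact Wk_cast (ins3 (Wk_mul (hY2 _ hy).1 t) w01 (r0 _)
        w12 (Wk_mul (hZ2 _ hz).1 s) h2) (by ring)
    · exact Wk_cast (ins3 (r0 _) w01 (Wk_mul (hY2 _ hy).1 t)
        w12 (Wk_mul (hZ2 _ hz).1 s) h2) (by ring)
  -- the claim
  have claim : ∃ w, w ≤ C.card ∧ ∀ s t : ℕ,
      Wk a (w + s * (C.card - 2) + t * (C.card - 1)) u j := by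
    have r0 : ∀ v : V, Wk a 0 v v := fun _ => rfl
    obtain ⟨d, hd, hw⟩ := hshort u hu
    rcases Nat.lt_or_ge d 2 with hd2 | hd2
    · rcases Nat.lt_or_ge d 1 with hd1 | hd1
      · -- `u = j`
        obtain rfl : d = 0 := by omega
        obtain rfl : u = j := hw
        obtain ⟨K1, rfl⟩ : ∃ K1, K0 = K1 + 1 := ⟨K0 - 1, by omega⟩
        obtain ⟨x, hx, -⟩ := hfull u
        have hxC := hcore.closed u hu x hx
        obtain ⟨d', hd', hw'⟩ := hshort x hxC
        have hd1' : d' ≠ 0 := by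
          rintro rfl
          obtain rfl : x = u := hw'
          exact loop _ hu hx
        obtain ⟨l, rfl⟩ : ∃ l, d' = l + 1 := ⟨d' - 1, by omega⟩
        exact ⟨l + 2, by omega, hlong l u hu ⟨x, hx, hw'⟩⟩
      · obtain rfl : d = 1 := by omega
        have huj : a u j := Wk_one.1 hw
        have hjC := hcore.mem
        have nuj : u ≠ j := by rintro rfl; exact loop _ hu huj
        by_cases hz : u ∈ Z ∨ j ∈ Z
        · refine ⟨1, by omega, fun s t => ?_⟩
          rcases hz with hz | hz <;> rcases out2 hYC hYc hu hjC nuj with hy | hy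
          · exact Wk_cast (ins3 (Wk_trans (Wk_mul (hZ2 _ hz).1 s) (Wk_mul (hY2 _ hy).1 t)) hw
              (r0 _) (r0 _) (r0 _) (r0 _)) (by ring)
          · exact Wk_cast (ins3 (Wk_mul (hZ2 _ hz).1 s) hw (Wk_mul (hY2 _ hy).1 t)
              (r0 _) (r0 _) (r0 _)) (by ring)
          · exact Wk_cast (ins3 (Wk_mul (hY2 _ hy).1 t) hw (Wk_mul (hZ2 _ hz).1 s)
              (r0 _) (r0 _) (r0 _)) (by ring)
          · exact Wk_cast (ins3 (r0 _) hw (Wk_trans (Wk_mul (hZ2 _ hz).1 s)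
              (Wk_mul (hY2 _ hy).1 t)) (r0 _) (r0 _) (r0 _)) (by ring)
        · push Not at hz
          obtain ⟨hzu, hzj⟩ := hz
          by_cases hyj : j ∈ Y
          · obtain ⟨-, ⟨x, hxY, hjx⟩, -⟩ := hY2 j hyj
            have hxC := hcore.closed j hjC x hjx
            have nxj : j ≠ x := by rintro rfl; exact loop _ hjC hjx
            have nxu : u ≠ x := by rintro rfl; exact two _ hu _ huj hjx
            have hxZ : x ∈ Z := by
              rcases out3 hZC hZc hu hjC hxC nuj nxu nxj with h | h | h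
              · exact absurd h hzu
              · exact absurd h hzj
              · exact h
            obtain ⟨k, hk, hkw⟩ := (hY2 x hxY).2.2 j hyj
            refine ⟨k + 2, by omega, fun s t => ?_⟩
            exact Wk_cast (ins3 (r0 _) hw (Wk_mul (hY2 _ hyj).1 t) (Wk_one.2 hjx)
              (Wk_mul (hZ2 _ hxZ).1 s) hkw) (by ring)
          · have hyu : u ∈ Y := by
              rcases out2 hYC hYc hu hjC nuj with h | h
              · exact h
              · exact absurd h hyj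
            obtain ⟨-, ⟨x, hxY, hux⟩, -⟩ := hY2 u hyu
            have hxC := hcore.closed u hu x hux
            have nxu : u ≠ x := by rintro rfl; exact loop _ hu hux
            have nxj : j ≠ x := by rintro rfl; exact hyj hxY
            have hxZ : x ∈ Z := by
              rcases out3 hZC hZc hu hjC hxC nuj nxu nxj with h | h | h
              · exact absurd h hzu
              · exact absurd h hzj
              · exact h
            obtain ⟨k, hk, hkw⟩ := (hY2 x hxY).2.2 u hyu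
            refine ⟨k + 2, by omega, fun s t => ?_⟩
            exact Wk_cast (ins3 (Wk_mul (hY2 _ hyu).1 t) (Wk_one.2 hux)
              (Wk_mul (hZ2 _ hxZ).1 s) (Wk_trans hkw hw) (r0 _) (r0 _)) (by ring)
    · obtain ⟨l, rfl⟩ : ∃ l, d = l + 2 := ⟨d - 2, by omega⟩
      exact ⟨l + 2, by omega, hlong l u hu hw⟩
  obtain ⟨w, hw, hgood⟩ := claim
  have hm : (C.card - 2 - 1) * (C.card - 2) ≤ K - w := by
    have e : C.card - 2 - 1 = C.card - 3 := by omega
    rw [e]
    omega
  obtain ⟨s, t, hst⟩ := repr_of_le (p := C.card - 2) (by omega) hm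
  have h := hgood s t
  have hwK : w ≤ K := by
    have : C.card ≤ K := le_trans (Nat.le_add_right _ _) hK
    omega
  refine Wk_cast h ?_
  have e : C.card - 1 = C.card - 2 + 1 := by omega
  rw [e]
  omega

end Pool.Agent.L7h54.GP
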